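import Pool.Agent.N309.LO.Gap

/-!
# The Atiyah conjecture for finite extensions of left orderable groups

Let `N` be a finite subgroup of `G` such that `G` preserves a total order of the left cosets of `N`
(for example `N` normal and `G / N` left orderable). Then all finite subgroups of `G` are contained
in `N`, and the kernel of a nonzero matrix with `m` rows over the complex group algebra has von
Neumann dimension at most `m - 1 / |N|`. If `N` is central, the dimension is at most `m - s / |N|`,
where `s` is the number of the characters of `N` at which `A` does not vanish, with equality if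
`A` has one row or one column; so in this case the dimension is a multiple of `1 / |N|`, as the
Atiyah conjecture predicts.

Outline. The basis is the inequality for invariant orders (`N309.LO.mat_le`): the kernel of a matrix
is at most as large as that of its part at the top level, for all levels of the rows and columns in
a totally ordered set on which `G` acts. For a character `χ` of the central subgroup `N` it is
applied to the matrix with one row whose entries are the component of an entry `α` of `A` at `χ` and
the elements `z - χ(z)`, `z` in `N`; its part at the top level is injective. So the component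
at `χ` of a vector of the kernel of `α` vanishes, if that of `α` does not.
-/

set_option autoImplicit false

universe u v

namespace Pool.Agent.Results.MP_54e5d7_al.CentralExtensions

/-- The kernel of right multiplication by the matrix `A` on `ℓ²(G)^m`. -/
def kernel {G : Type u} [Group G] {m n : ℕ} (A : Fin m → Fin n → (G →₀ ℂ)) :
    Set (lp (fun _ : Fin m × G => ℂ) 2) :=
  {x | ∀ (j : Fin n) (g : G), ∑ k : Fin m, ∑ h ∈ (A k j).support, x (k, g * h⁻¹) * A k j h = 0}

open Classical in
/-- The von Neumann dimension of the kernel of right multiplication by `A` on `ℓ²(G)^m`: the sum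
over the rows `i` of one minus the squared distance of the basis vector at `(i, 1)` to the
kernel. -/
noncomputable def kerDim {G : Type u} [Group G] {m n : ℕ} (A : Fin m → Fin n → (G →₀ ℂ)) : ℝ :=
  ∑ i : Fin m, (1 - (Metric.infDist
    (lp.single 2 (i, (1 : G)) (1 : ℂ) : lp (fun _ : Fin m × G => ℂ) 2) (kernel A)) ^ 2)

/-- The total order of the left cosets of `N` is invariant under the action of `G`. -/
def IsInvariant {G : Type u} [Group G] (N : Subgroup G) [LinearOrder (G ⧸ N)] : Prop :=
  ∀ (g : G) (a b : G ⧸ N), a ≤ b → g • a ≤ g • b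

/-- `d` is the least common multiple of the orders of the finite subgroups of `G`: the numbers
divisible by `d` are those divisible by all these orders. -/
def IsLcm (G : Type u) [Group G] (d : ℕ) : Prop :=
  ∀ e : ℕ, d ∣ e ↔ ∀ F : Subgroup G, Finite F → Nat.card F ∣ e

/-- The number of the characters `χ` of `N` at which `A` does not vanish, which means that for some
entry `α` of `A` and some `g` the sum of the numbers `χ(z) α(g z)`, `z` in `N`, is not zero. -/
noncomputable def numChar {G : Type u} [Group G] (N : Subgroup G) {m n : ℕ}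
    (A : Fin m → Fin n → (G →₀ ℂ)) : ℕ :=
  Set.ncard {χ : N →* ℂ | ∃ k j, ∃ g : G, ∑ᶠ z : N, χ z * A k j (g * z) ≠ 0}

section
variable {G : Type u} [Group G] {Z : Type v} [CommGroup Z] [Fintype Z] (ι : Z →* G)

theorem ncard_chars {m n : ℕ} (A : Fin m → Fin n → (G →₀ ℂ)) (S : Finset (N309.LO.Du Z))
    (hS : ∀ χ, χ ∈ S ↔ ∃ k j, N309.LO.cp ι χ (A k j) ≠ 0) :
    Set.ncard {φ : Z →* ℂ | ∃ k j, ∃ g : G, ∑ᶠ z : Z, φ z * A k j (g * ι z) ≠ 0} = S.card := by
  let f : N309.LO.Du Z → (Z →* ℂ) := fun χ =>
    { toFun := N309.LO.ch χ
      map_one' := N309.LO.ch_one χ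
      map_mul' := N309.LO.ch_mul χ }
  have hf : Function.Injective f := by
    intro χ ψ h
    ext x
    exact congrArg (fun φ : Z →* ℂ => φ (Additive.toMul x)) h
  have hset : {φ : Z →* ℂ | ∃ k j, ∃ g : G, ∑ᶠ z : Z, φ z * A k j (g * ι z) ≠ 0}
      = f '' (S : Set (N309.LO.Du Z)) := by
    ext φ
    constructor
    · rintro ⟨k, j, g, hne⟩
      let χ : N309.LO.Du Z :=
        { toFun := fun x => φ (Additive.toMul x)
          map_zero_eq_one' := map_one φ
          map_add_eq_mul' := fun a b => map_mul φ (Additive.toMul a) (Additive.toMul b) }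
      refine ⟨χ, (hS χ).2 ⟨k, j, ?_⟩, rfl⟩
      intro h0
      apply hne
      have h1 := N309.LO.cp_apply ι χ (A k j) g
      rw [h0] at h1
      rw [finsum_eq_sum_of_fintype]
      exact h1.symm
    · rintro ⟨χ, hχ, rfl⟩
      obtain ⟨k, j, hne⟩ := (hS χ).1 hχ
      obtain ⟨g, hg⟩ := Finsupp.ne_iff.1 hne
      refine ⟨k, j, g, ?_⟩
      rw [finsum_eq_sum_of_fintype]
      rw [N309.LO.cp_apply] at hg
      exact hg
  rw [hset, Set.ncard_image_of_injective _ hf, Set.ncard_coe_finset]

end

theorem smul_eq_of_finite {G : Type u} [Group G] (N : Subgroup G) [LinearOrder (G ⧸ N)]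
    (hinv : IsInvariant N) (g : G) (hg : IsOfFinOrder g) : g ∈ N := by
  have hlt : ∀ (x : G) (a b : G ⧸ N), a < b → x • a < x • b := fun x a b h =>
    N309.LO.OrdInv.lt (fun g a b h => hinv g a b h) x h
  have key : ∀ x : G, IsOfFinOrder x → ¬ (((1 : G) : G ⧸ N) < x • ((1 : G) : G ⧸ N)) := by
    intro x hx hlt1
    have h1 : ∀ n : ℕ, ((1 : G) : G ⧸ N) < x ^ (n + 1) • ((1 : G) : G ⧸ N) := by
      intro n
      induction n with
      | zero => rwa [zero_add, pow_one]
      | succ n ih =>
        refine ih.trans ?_
        rw [pow_succ x (n + 1), mul_smul]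
        exact hlt _ _ _ hlt1
    have h2 := h1 (orderOf x - 1)
    rw [Nat.sub_add_cancel hx.orderOf_pos, pow_orderOf_eq_one, one_smul] at h2
    exact lt_irrefl _ h2
  have h1 := key g hg
  have h2 := key g⁻¹ hg.inv
  have h3 : g • ((1 : G) : G ⧸ N) = ((1 : G) : G ⧸ N) := by
    apply le_antisymm (not_lt.1 h1)
    by_contra h4
    apply h2
    have h5 := hlt g⁻¹ _ _ (not_le.1 h4)
    rwa [inv_smul_smul] at h5
  have h4 : ((g * 1 : G) : G ⧸ N) = ((1 : G) : G ⧸ N) := h3
  rw [mul_one, QuotientGroup.eq, mul_one] at h4
  exact inv_mem_iff.1 h4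

theorem stab {G : Type u} [Group G] (N : Subgroup G) (g : G) :
    g • ((1 : G) : G ⧸ N) = ((1 : G) : G ⧸ N) ↔ g ∈ N := by
  have h : g • ((1 : G) : G ⧸ N) = ((g * 1 : G) : G ⧸ N) := rfl
  rw [h, mul_one, QuotientGroup.eq, mul_one, inv_mem_iff]

/-- **Finite extensions of left orderable groups.** Let `N` be a finite subgroup of `G` and let the
action of `G` preserve some total order of the left cosets of `N` (for instance, `N` is normal
and `G / N` has a left-invariant total order). Matrices are over the complex group algebra of `G`.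

1. The least common multiple of the orders of the finite subgroups of `G` is `|N|`.
2. The kernel dimension of a nonzero matrix with `m` rows is at most `m - 1 / |N|`.
3. If `N` is central, and `A` is an `m × n` matrix which does not vanish at `s` of the characters
of `N`, then the kernel dimension of `A` is at most `m - s / |N|` and at least
`m - min(m, n) s / |N|`. So for `m = 1` and for `n = 1` it is `m - s / |N|`, and
its product with `|N|` is an integer. -/
theorem result (G : Type u) [Group G] (N : Subgroup G) [Finite N] [LinearOrder (G ⧸ N)]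
    (hinv : IsInvariant N) :
    IsLcm G (Nat.card N) ∧
    (∀ (m n : ℕ) (A : Fin m → Fin n → (G →₀ ℂ)), A ≠ 0 →
      kerDim A ≤ (m : ℝ) - 1 / Nat.card N) ∧
    (N ≤ Subgroup.center G → ∀ (m n : ℕ) (A : Fin m → Fin n → (G →₀ ℂ)),
      kerDim A ≤ (m : ℝ) - numChar N A / Nat.card N ∧
      (m : ℝ) - min m n * (numChar N A / Nat.card N) ≤ kerDim A ∧
      (m = 1 ∨ n = 1 → kerDim A = (m : ℝ) - numChar N A / Nat.card N ∧
        ∃ t : ℤ, Nat.card N * kerDim A = t)) := by
  have hX : N309.LO.OrdInv G (G ⧸ N) := fun g a b h => hinv g a b h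
  refine ⟨?_, ?_, ?_⟩
  · intro e
    constructor
    · intro he F hF
      have hle : F ≤ N := by
        intro g hg
        have h1 : IsOfFinOrder (⟨g, hg⟩ : F) := isOfFinOrder_of_finite _
        exact smul_eq_of_finite N hinv g (Submonoid.isOfFinOrder_coe.2 h1)
      exact (Subgroup.card_dvd_of_le hle).trans he
    · intro h
      exact h N inferInstance
  · intro m n A hA
    have h := N309.LO.gap hX N ((1 : G) : G ⧸ N) (stab N) A (by
      by_contra hcon
      push Not at hcon
      apply hA
      funext k j
      exact hcon k j)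
    rw [Fintype.card_fin] at h
    exact h
  · intro hc m n A
    classical
    let _ : CommGroup N := { (inferInstance : Group N) with
      mul_comm := fun a b => Subtype.ext (Subgroup.mem_center_iff.1 (hc b.2) a) }
    let _ : Fintype N := Fintype.ofFinite N
    have hcc : ∀ (z : N) (g : G), N.subtype z * g = g * N.subtype z := by
      intro z g
      exact (Subgroup.mem_center_iff.1 (hc z.2) g).symm
    have hinj : Function.Injective N.subtype := Subtype.coe_injective
    have hstab : ∀ g : G, g • ((1 : G) : G ⧸ N) = ((1 : G) : G ⧸ N) ↔ g ∈ Set.range N.subtype := by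
      intro g
      rw [stab]
      constructor
      · intro hg
        exact ⟨⟨g, hg⟩, rfl⟩
      · rintro ⟨z, rfl⟩
        exact z.2
    let S : Finset (N309.LO.Du N) :=
      Finset.univ.filter (fun χ => ∃ k j, N309.LO.cp N.subtype χ (A k j) ≠ 0)
    have hS : ∀ χ, χ ∈ S ↔ ∃ k j, N309.LO.cp N.subtype χ (A k j) ≠ 0 := by
      intro χ
      exact ⟨fun h => (Finset.mem_filter.1 h).2, fun h => Finset.mem_filter.2 ⟨Finset.mem_univ _, h⟩⟩
    have hnum : numChar N A = S.card := ncard_chars N.subtype A S hS
    have hS' : ∀ χ, χ ∉ S → ∀ k j, N309.LO.cp N.subtype χ (A k j) = 0 := by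
      intro χ hχ k j
      by_contra h
      exact hχ ((hS χ).2 ⟨k, j, h⟩)
    have up := N309.LO.central_upper N.subtype hX hcc hinj ((1 : G) : G ⧸ N) hstab A S
      (fun χ h => (hS χ).1 h)
    have lo1 := N309.LO.central_lower_range N.subtype hcc hinj A S hS'
    have lo2 := N309.LO.central_lower_ker N.subtype hcc hinj A S hS'
    rw [Fintype.card_fin, ← hnum, ← Nat.card_eq_fintype_card] at up
    rw [Fintype.card_fin, Fintype.card_fin, ← hnum, ← Nat.card_eq_fintype_card] at lo1
    rw [Fintype.card_fin, ← hnum, ← Nat.card_eq_fintype_card] at lo2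
    have up' : kerDim A ≤ (m : ℝ) - numChar N A / Nat.card N := up
    have lo1' : (m : ℝ) - n * (numChar N A / Nat.card N) ≤ kerDim A := lo1
    have lo2' : (m : ℝ) - m * (numChar N A / Nat.card N) ≤ kerDim A := lo2
    have hlow : (m : ℝ) - min m n * (numChar N A / Nat.card N) ≤ kerDim A := by
      rcases min_choice m n with h | h
      · have h' : ((min m n : ℕ) : ℝ) = m := by rw [h]
        rw [h']
        exact lo2'
      · have h' : ((min m n : ℕ) : ℝ) = n := by rw [h]
        rw [h']
        exact lo1'
    refine ⟨up', hlow, fun hmn => ?_⟩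
    have heq : kerDim A = (m : ℝ) - numChar N A / Nat.card N := by
      apply le_antisymm up'
      rcases hmn with h | h
      · have h' : (m : ℝ) = 1 := by exact_mod_cast h
        rw [h', one_mul] at lo2'
        rw [h']
        exact lo2'
      · have h' : (n : ℝ) = 1 := by exact_mod_cast h
        rw [h', one_mul] at lo1'
        exact lo1'
    refine ⟨heq, (Nat.card N : ℤ) * m - numChar N A, ?_⟩
    have hpos : (Nat.card N : ℝ) ≠ 0 := by
      exact_mod_cast Nat.card_pos.ne'
    rw [heq]
    push_cast
    field_simp

end Pool.Agent.Results.MP_54e5d7_al.CentralExtensions
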